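import Pool.Agent.T2H09.PB.Sharp

/-!
# The width of the cusp of the Mandelbrot set
-/

set_option autoImplicit false
open Set Filter Topology Metric

namespace Pool.Agent.T2H09.PB

open Pool.Agent.W746.LD Pool.Agent.T2H09.DH N62a1eb23

/-- The real orbit. -/
noncomputable def wq (x : ℝ) : ℕ → ℝ
  | 0 => -(1 / 2)
  | (k + 1) => wq x k + wq x k ^ 2 + x

lemma wq_succ (x : ℝ) (k : ℕ) : wq x (k + 1) = wq x k + wq x k ^ 2 + x := rfl

lemma wq_ge {x : ℝ} (hx : 0 < x) (k : ℕ) : -(1 / 2) ≤ wq x k := by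
  induction k with
  | zero => exact le_rfl
  | succ k ih => rw [wq_succ]; nlinarith [sq_nonneg (wq x k)]

lemma wq_next (x : ℝ) (k : ℕ) :
    wq x (k + 1) ^ 2 + x = (wq x k ^ 2 + x) * (1 + 2 * wq x k + (wq x k ^ 2 + x)) := by
  rw [wq_succ]; ring

/-- One step of the passage, measured by the arc tangent. -/
lemma arctan_step {x : ℝ} (hx : 0 < x) (hx1 : x ≤ 1) {k : ℕ} (h3 : wq x k < 3) :
    √x / 17 ≤ Real.arctan (wq x (k + 1) / √x) - Real.arctan (wq x k / √x) := by
  have hs : 0 < √x := Real.sqrt_pos.mpr hx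
  have hss : √x ^ 2 = x := Real.sq_sqrt hx.le
  have hw := wq_ge hx k
  set w := wq x k with hwd
  set h : ℝ := w ^ 2 + x with hh
  have hh0 : 0 < h := by positivity
  have hstep : wq x (k + 1) = w + h := by rw [wq_succ]; ring
  have hnext : (w + h) ^ 2 + x = h * (1 + 2 * w + h) := by
    have := wq_next x k
    rw [hstep] at this
    exact this
  have hh2 : h ≤ 10 := by nlinarith
  have hfac : 1 + 2 * w + h ≤ 17 := by linarith
  have hup : ∀ u ∈ Icc w (w + h), u ^ 2 + x ≤ 17 * h := by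
    intro u hu
    have h1 : u ^ 2 ≤ max (w ^ 2) ((w + h) ^ 2) := by
      rcases le_or_gt 0 u with h0 | h0
      · exact le_max_of_le_right (by nlinarith [hu.2])
      · exact le_max_of_le_left (by nlinarith [hu.1])
    rcases max_choice (w ^ 2) ((w + h) ^ 2) with h2 | h2
    · rw [h2] at h1; nlinarith
    · rw [h2] at h1; nlinarith
  have hder : ∀ u : ℝ, HasDerivAt (fun u : ℝ => Real.arctan (u / √x)) (√x / (u ^ 2 + x)) u := by
    intro u
    have h1 : HasDerivAt (fun u : ℝ => u / √x) (1 / √x) u := (hasDerivAt_id u).div_const _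
    refine h1.arctan.congr_deriv ?_
    have h2 : 1 + (u / √x) ^ 2 = (u ^ 2 + x) / x := by
      rw [div_pow, hss]; field_simp; ring
    have h3 : u ^ 2 + x ≠ 0 := by positivity
    rw [h2]
    have h4 : √x ≠ 0 := hs.ne'
    field_simp
    rw [hss]
  have hmvt := Convex.mul_sub_le_image_sub_of_le_deriv (convex_Icc w (w + h))
    (f := fun u : ℝ => Real.arctan (u / √x))
    (fun u _ => (hder u).continuousAt.continuousWithinAt)
    (fun u _ => (hder u).differentiableAt.differentiableWithinAt) (C := √x / (17 * h))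
    (fun u hu => by
      rw [(hder u).deriv]
      have hu' := interior_subset hu
      have h1 := hup u hu'
      have h2 : 0 < u ^ 2 + x := by positivity
      gcongr) w (left_mem_Icc.mpr (by linarith)) (w + h) (right_mem_Icc.mpr (by linarith))
      (by linarith)
  rw [hstep]
  refine le_trans (le_of_eq ?_) hmvt
  rw [add_sub_cancel_left]
  field_simp

/-- The number of steps of the passage. -/
lemma passage {x : ℝ} (hx : 0 < x) (hx1 : x ≤ 1) : ∃ N : ℕ, 3 ≤ wq x N ∧ wq x N ≤ 13 ∧
    (N : ℝ) * √x ≤ 54 ∧ ∀ k < N, wq x k < 3 := by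
  have hs : 0 < √x := Real.sqrt_pos.mpr hx
  have hcount : ∀ n : ℕ, (∀ k < n, wq x k < 3) → n * (√x / 17) ≤ Real.pi := by
    intro n hn
    have h1 : ∀ m ≤ n, m * (√x / 17) ≤
        Real.arctan (wq x m / √x) - Real.arctan (wq x 0 / √x) := by
      intro m
      induction m with
      | zero => intro _; simp
      | succ m ih =>
        intro hm
        have h2 := ih (by omega)
        have h3 := arctan_step hx hx1 (hn m (by omega))
        push_cast
        linarith
    have h2 := h1 n le_rfl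
    have h3 := Real.arctan_lt_pi_div_two (wq x n / √x)
    have h4 := Real.neg_pi_div_two_lt_arctan (wq x 0 / √x)
    linarith
  have hex : ∃ n, 3 ≤ wq x n := by
    by_contra hcon
    push Not at hcon
    obtain ⟨n, hn⟩ := exists_nat_gt (Real.pi / (√x / 17))
    have h1 := hcount n fun k _ => hcon k
    rw [div_lt_iff₀ (by positivity)] at hn
    linarith
  classical
  refine ⟨Nat.find hex, Nat.find_spec hex, ?_, ?_, fun k hk => not_le.mp (Nat.find_min hex hk)⟩
  · have h0 : Nat.find hex ≠ 0 := by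
      intro h
      have := Nat.find_spec hex
      rw [h] at this
      have h1 : wq x 0 = -(1 / 2) := rfl
      rw [h1] at this
      norm_num at this
    obtain ⟨m, hm⟩ := Nat.exists_eq_succ_of_ne_zero h0
    have h1 : wq x m < 3 := not_le.mp (Nat.find_min hex (by omega))
    have h2 := wq_ge hx m
    rw [hm, Nat.succ_eq_add_one, wq_succ]
    nlinarith
  · have h1 := hcount _ fun k hk => not_le.mp (Nat.find_min hex hk)
    have hpi := Real.pi_lt_d4
    have : (Nat.find hex : ℝ) * √x ≤ 17 * Real.pi := by linarith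
    linarith

/-- The disc of radius proportional to the power `3 / 2` escapes. -/
theorem cusp_escape {x : ℝ} (hx : 0 < x) (hx1 : x ≤ 1) {ξ : ℂ} (hξ : ‖ξ‖ ≤ x * √x / 54000) :
    (1 / 4 + x + ξ : ℂ) ∉ multibrotSet 2 := by
  obtain ⟨N, hN1, hN2, hN3, -⟩ := passage hx hx1
  have hs : 0 < √x := Real.sqrt_pos.mpr hx
  have hss : √x * √x = x := Real.mul_self_sqrt hx.le
  set c : ℂ := 1 / 4 + x + ξ with hc
  set e : ℝ := ‖ξ‖ / x with he
  have he0 : 0 ≤ e := by positivity
  have heN : N * e ≤ 1 / 1000 := by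
    have h1 : e ≤ √x / 54000 := by
      rw [he, div_le_iff₀ hx]
      linarith
    calc N * e ≤ N * (√x / 54000) := by gcongr
      _ = (N * √x) / 54000 := by ring
      _ ≤ 54 / 54000 := by gcongr
      _ = 1 / 1000 := by norm_num
  have key : ∀ k ≤ N, ‖orb 2 c 0 k - 1 / 2 - wq x k‖ ≤ k * e * (wq x k ^ 2 + x) := by
    intro k
    induction k with
    | zero =>
      intro _
      have h0 : wq x 0 = -(1 / 2) := rfl
      rw [orb_zero, h0]
      push_cast
      norm_num
    | succ k ih =>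
      intro hk
      have h1 := ih (by omega)
      set δ : ℂ := orb 2 c 0 k - 1 / 2 - wq x k with hδ
      set w := wq x k with hw
      have hwge : -(1 / 2) ≤ w := wq_ge hx k
      have hh0 : 0 < w ^ 2 + x := by positivity
      have hke : k * e ≤ 1 := by
        have : (k : ℝ) ≤ N := by exact_mod_cast (by omega : k ≤ N)
        have : k * e ≤ N * e := by gcongr
        linarith
      have h2 : ‖δ‖ ≤ w ^ 2 + x := by
        refine h1.trans ?_
        nlinarith
      have h3 : orb 2 c 0 (k + 1) - 1 / 2 - wq x (k + 1) = δ * ((1 + 2 * w : ℝ) + δ) + ξ := by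
        rw [orb_succ, wq_succ, ← hw]
        have : orb 2 c 0 k = δ + 1 / 2 + w := by rw [hδ]; ring
        rw [this, hc]
        push_cast
        ring
      rw [h3, wq_next, ← hw]
      have h4 : ‖((1 + 2 * w : ℝ) : ℂ) + δ‖ ≤ 1 + 2 * w + (w ^ 2 + x) := by
        refine (norm_add_le _ _).trans ?_
        rw [Complex.norm_real, Real.norm_eq_abs, abs_of_nonneg (by linarith)]
        linarith
      have h5 : ‖ξ‖ ≤ e * ((w ^ 2 + x) * (1 + 2 * w + (w ^ 2 + x))) := by
        have h6 : ‖ξ‖ = e * x := by rw [he]; field_simp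
        rw [h6]
        have h7 := wq_next x k
        rw [← hw] at h7
        rw [← h7]
        gcongr
        nlinarith [sq_nonneg (wq x (k + 1))]
      calc ‖δ * ((1 + 2 * w : ℝ) + δ) + ξ‖ ≤ ‖δ‖ * ‖((1 + 2 * w : ℝ) : ℂ) + δ‖ + ‖ξ‖ := by
            refine (norm_add_le _ _).trans ?_
            rw [norm_mul]
        _ ≤ (k * e * (w ^ 2 + x)) * (1 + 2 * w + (w ^ 2 + x)) +
            e * ((w ^ 2 + x) * (1 + 2 * w + (w ^ 2 + x))) := by gcongr
        _ = ((k + 1 : ℕ) : ℝ) * e * ((w ^ 2 + x) * (1 + 2 * w + (w ^ 2 + x))) := by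
            push_cast; ring
  have h1 := key N le_rfl
  have h2 : ‖orb 2 c 0 N - 1 / 2 - wq x N‖ ≤ 17 / 100 := by
    refine h1.trans ?_
    have h3 : wq x N ^ 2 + x ≤ 170 := by nlinarith
    have h4 : 0 ≤ wq x N ^ 2 + x := by positivity
    have h5 : 0 ≤ (N : ℝ) * e := by positivity
    nlinarith
  intro hmem
  rw [Pool.Agent.H712R2.mem_multibrot_iff (le_refl 2)] at hmem
  have h3 := hmem N
  have h4 : Pool.Agent.H712R2.P 2 N c = orb 2 c 0 N := by
    rcases N with _ | N
    · rfl
    · rw [P_eq_orb (le_refl 2), add_comm N 1, orb_add, orb_one]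
      norm_num
  rw [h4] at h3
  have h5 : (3.5 : ℝ) ≤ ‖(1 / 2 : ℂ) + wq x N‖ := by
    have : (1 / 2 : ℂ) + wq x N = ((1 / 2 + wq x N : ℝ) : ℂ) := by push_cast; ring
    rw [this, Complex.norm_real, Real.norm_eq_abs, abs_of_nonneg (by linarith)]
    norm_num
    linarith
  have h6 : ‖(1 / 2 : ℂ) + wq x N‖ ≤ ‖orb 2 c 0 N‖ + ‖orb 2 c 0 N - 1 / 2 - wq x N‖ := by
    have : (1 / 2 : ℂ) + wq x N = orb 2 c 0 N - (orb 2 c 0 N - 1 / 2 - wq x N) := by ring
    rw [this]
    exact norm_sub_le _ _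
  norm_num at h5
  linarith

/-- The distance at the cusp. -/
theorem cusp_sharp {x : ℝ} (hx : 0 < x) (hx1 : x ≤ 1) :
    x ^ (3 / 2 : ℝ) / 54000 ≤ infDist (1 / 4 + x : ℂ) (Hy 2) := by
  have hne : (Hy 2).Nonempty := ⟨0, zero_mem_Hy le_rfl⟩
  have hpow : x ^ (3 / 2 : ℝ) = x * √x := by
    rw [Real.sqrt_eq_rpow, show (3 / 2 : ℝ) = 1 + 1 / 2 by norm_num, Real.rpow_add hx,
      Real.rpow_one]
  rw [hpow, le_infDist hne]
  intro y hy
  by_contra hcon
  rw [not_le, dist_comm, dist_eq_norm] at hcon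
  have h1 := cusp_escape hx hx1 (ξ := y - (1 / 4 + x)) hcon.le
  apply h1
  rw [add_sub_cancel]
  exact att_mem le_rfl hy

end Pool.Agent.T2H09.PB
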