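import Mathlib

/-!
# Two lemmas on the zeros of analytic functions
-/

set_option autoImplicit false
open Set Filter Topology Metric

namespace Pool.Agent.T2H09.PB

/-- local form -/
lemma an_form {g : ℂ → ℂ} {w : ℂ} (hg : AnalyticAt ℂ g w) (hne : ¬ ∀ᶠ z in 𝓝 w, g z = 0) :
    ∃ (k : ℕ) (h : ℂ → ℂ), h w ≠ 0 ∧ ContinuousAt h w ∧ ContinuousAt (deriv h) w ∧
      (∀ᶠ z in 𝓝 w, g z = (z - w) ^ k * h z) ∧
      ∀ᶠ z in 𝓝 w, deriv g z = k * (z - w) ^ (k - 1) * h z + (z - w) ^ k * deriv h z := by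
  obtain ⟨k, h, hh, hh0, hev⟩ := hg.exists_eventuallyEq_pow_smul_nonzero_iff.mpr hne
  simp only [smul_eq_mul] at hev
  refine ⟨k, h, hh0, hh.continuousAt, hh.deriv.continuousAt, hev, ?_⟩
  have hev2 := hev.eventually_nhds
  filter_upwards [hev2, hh.eventually_analyticAt] with z hz1 hz2
  have h1 : g =ᶠ[𝓝 z] fun z => (z - w) ^ k * h z := hz1
  rw [h1.deriv_eq]
  have h2 : HasDerivAt (fun z : ℂ => (z - w) ^ k) (k * (z - w) ^ (k - 1) * 1) z :=
    ((hasDerivAt_id z).sub_const w).fun_pow k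
  have h3 := (h2.fun_mul hz2.differentiableAt.hasDerivAt).deriv
  rw [h3, mul_one]

/-- The logarithmic derivative at a zero. -/
lemma an_log {g : ℂ → ℂ} {w : ℂ} (hg : AnalyticAt ℂ g w) (h0 : g w = 0)
    (hne : ¬ ∀ᶠ z in 𝓝 w, g z = 0) :
    (∀ᶠ z in 𝓝 w, z ≠ w → g z ≠ 0) ∧ (∀ᶠ z in 𝓝 w, ‖g z‖ ≤ 2 * (‖z - w‖ * ‖deriv g z‖)) ∧
      ∃ C : ℝ, 0 < C ∧ ∀ᶠ z in 𝓝 w, ‖g z‖ ≤ C * ‖z - w‖ := by
  obtain ⟨k, h, hh0, hc1, hc2, hev, hder⟩ := an_form hg hne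
  have hk : 1 ≤ k := by
    by_contra hk
    have hk0 : k = 0 := by omega
    have := hev.self_of_nhds
    rw [h0, hk0, pow_zero, one_mul] at this
    exact hh0 this.symm
  have hhpos : 0 < ‖h w‖ := norm_pos_iff.mpr hh0
  have hcn : ContinuousAt (fun z => ‖h z‖) w := hc1.norm
  have hne1 : ∀ᶠ z in 𝓝 w, h z ≠ 0 := hc1.eventually_ne hh0
  have hsmall : ∀ᶠ z in 𝓝 w, ‖(z - w) * deriv h z‖ < ‖h z‖ / 2 := by
    have hcon : ContinuousAt (fun z => ‖h z‖ / 2 - ‖(z - w) * deriv h z‖) w := by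
      refine (hcn.div_const 2).sub ?_
      exact ((continuousAt_id.sub continuousAt_const).mul hc2).norm
    have hpos : (0 : ℝ) < ‖h w‖ / 2 - ‖(w - w) * deriv h w‖ := by
      rw [sub_self, zero_mul, norm_zero]
      linarith
    filter_upwards [hcon.eventually (lt_mem_nhds hpos)] with z hz
    linarith
  refine ⟨?_, ?_, ‖h w‖ + 1, by linarith, ?_⟩
  · filter_upwards [hev, hne1] with z hz1 hz2 hz3
    rw [hz1]
    exact mul_ne_zero (pow_ne_zero _ (sub_ne_zero.mpr hz3)) hz2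
  · filter_upwards [hev, hder, hsmall] with z hz1 hz2 hz3
    rw [← norm_mul, hz1, hz2]
    have e1 : (z - w) * (k * (z - w) ^ (k - 1) * h z + (z - w) ^ k * deriv h z) =
        (z - w) ^ k * (k * h z + (z - w) * deriv h z) := by
      have : (z - w) ^ k = (z - w) ^ (k - 1) * (z - w) := by
        rw [← pow_succ, Nat.sub_add_cancel hk]
      rw [this]
      ring
    rw [e1, norm_mul, norm_mul]
    have h1 : ‖h z‖ / 2 ≤ ‖k * h z + (z - w) * deriv h z‖ := by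
      have h2 := norm_sub_le (k * h z + (z - w) * deriv h z) ((z - w) * deriv h z)
      rw [add_sub_cancel_right, norm_mul, Complex.norm_natCast] at h2
      have h3 : (1 : ℝ) ≤ k := by exact_mod_cast hk
      have h4 : 0 ≤ ‖h z‖ := norm_nonneg _
      nlinarith
    have h5 : 0 ≤ ‖(z - w) ^ k‖ := norm_nonneg _
    nlinarith
  · have hb : ∀ᶠ z in 𝓝 w, ‖h z‖ < ‖h w‖ + 1 := hcn.eventually (gt_mem_nhds (by linarith))
    filter_upwards [hev, hb, ball_mem_nhds w one_pos] with z hz1 hz2 hz3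
    rw [hz1, norm_mul, norm_pow]
    rw [mem_ball_iff_norm] at hz3
    have h1 : ‖z - w‖ ^ k ≤ ‖z - w‖ := by
      calc ‖z - w‖ ^ k ≤ ‖z - w‖ ^ 1 := pow_le_pow_of_le_one (norm_nonneg _) hz3.le hk
        _ = ‖z - w‖ := pow_one _
    have h2 : 0 ≤ ‖h z‖ := norm_nonneg _
    have h3 : 0 ≤ ‖z - w‖ := norm_nonneg _
    nlinarith

/-- At a multiple zero the square of the derivative is bounded by the function. -/
lemma an_sq {g : ℂ → ℂ} {w : ℂ} (hg : AnalyticAt ℂ g w) (h0 : g w = 0) (h1 : deriv g w = 0)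
    (hne : ¬ ∀ᶠ z in 𝓝 w, g z = 0) :
    ∃ K : ℝ, 0 ≤ K ∧ ∀ᶠ z in 𝓝 w, ‖deriv g z‖ ^ 2 ≤ K * ‖g z‖ := by
  obtain ⟨k, h, hh0, hc1, hc2, hev, hder⟩ := an_form hg hne
  have hk : 2 ≤ k := by
    by_contra hk
    have hk0 : k = 0 ∨ k = 1 := by omega
    rcases hk0 with rfl | rfl
    · have := hev.self_of_nhds
      rw [h0, pow_zero, one_mul] at this
      exact hh0 this.symm
    · have := hder.self_of_nhds
      rw [h1] at this
      simp at this
      exact hh0 this.symm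
  have hhpos : 0 < ‖h w‖ := norm_pos_iff.mpr hh0
  have hlow : ∀ᶠ z in 𝓝 w, ‖h w‖ / 2 < ‖h z‖ := hc1.norm.eventually (lt_mem_nhds (by linarith))
  have hup : ∀ᶠ z in 𝓝 w, ‖k * h z + (z - w) * deriv h z‖ < ‖k * h w‖ + 1 := by
    have hcon : ContinuousAt (fun z => ‖k * h z + (z - w) * deriv h z‖) w :=
      ((hc1.const_mul (k : ℂ)).add ((continuousAt_id.sub continuousAt_const).mul hc2)).norm
    refine hcon.eventually (gt_mem_nhds ?_)
    simp only [sub_self, zero_mul, add_zero]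
    linarith
  set B : ℝ := ‖k * h w‖ + 1 with hB
  have hB0 : 0 < B := by positivity
  refine ⟨2 * B ^ 2 / ‖h w‖, by positivity, ?_⟩
  filter_upwards [hev, hder, hlow, hup, ball_mem_nhds w one_pos] with z hz1 hz2 hz3 hz4 hz5
  rw [mem_ball_iff_norm] at hz5
  rw [hz1, hz2]
  have e1 : k * (z - w) ^ (k - 1) * h z + (z - w) ^ k * deriv h z =
      (z - w) ^ (k - 1) * (k * h z + (z - w) * deriv h z) := by
    have : (z - w) ^ k = (z - w) ^ (k - 1) * (z - w) := by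
      rw [← pow_succ, Nat.sub_add_cancel (by omega)]
    rw [this]
    ring
  rw [e1, norm_mul, norm_mul, norm_pow, norm_pow, mul_pow, ← pow_mul]
  have h2 : ‖z - w‖ ^ ((k - 1) * 2) ≤ ‖z - w‖ ^ k :=
    pow_le_pow_of_le_one (norm_nonneg _) hz5.le (by omega)
  have h3 : ‖k * h z + (z - w) * deriv h z‖ ^ 2 ≤ B ^ 2 := by gcongr
  have h4 : B ^ 2 ≤ 2 * B ^ 2 / ‖h w‖ * ‖h z‖ := by
    rw [div_mul_eq_mul_div, le_div_iff₀ hhpos]
    have : 0 < B ^ 2 := by positivity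
    nlinarith
  calc ‖z - w‖ ^ ((k - 1) * 2) * ‖k * h z + (z - w) * deriv h z‖ ^ 2
      ≤ ‖z - w‖ ^ k * B ^ 2 := by gcongr
    _ ≤ ‖z - w‖ ^ k * (2 * B ^ 2 / ‖h w‖ * ‖h z‖) := by gcongr
    _ = 2 * B ^ 2 / ‖h w‖ * (‖z - w‖ ^ k * ‖h z‖) := by ring

end Pool.Agent.T2H09.PB
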