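import Pool.Agent.T2H09.PB.Dich

/-!
# Discs without attracting cycles near a parabolic parameter
-/

set_option autoImplicit false
open Set Filter Topology Metric Polynomial

namespace Pool.Agent.T2H09.PB

open Pool.Agent.W746.LD Pool.Agent.TH363.QI Pool.Agent.T2H09.IX

/-- The resultant as a product over the roots. -/
lemma eval_Ql_prod {d N : ℕ} (hd : 2 ≤ d) (hN : 1 ≤ N) (t l : ℂ) :
    (Ql d N l).eval t = ((FP d N t).roots.map fun z => P d t z N - l).prod := by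
  obtain ⟨h1, h2⟩ := monic_G hd N t l
  have hnp := two_le_pow hd hN
  have hmap : (G d N).map (ev t l) = (G d N).map (ev t 0) := by
    apply Polynomial.funext
    intro z
    rw [eval_G, eval_G]
  have hf2 := (monic_FP hd hN t).2
  have hmapf : (G d N - X).map (ev t l) = FP d N t := by
    rw [Polynomial.map_sub, Polynomial.map_X, hmap, FP]
  have hmapg : (derivative (G d N) - C (MvPolynomial.X 1)).map (ev t l) =
      derivative ((G d N).map (ev t l)) - C l := by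
    rw [Polynomial.map_sub, Polynomial.map_C, ev_X1, Polynomial.derivative_map]
  have hdeg : (derivative ((G d N).map (ev t l)) - C l).natDegree ≤ d ^ N := by
    refine (Polynomial.natDegree_sub_le _ _).trans ?_
    rw [Polynomial.natDegree_C]
    have := Polynomial.natDegree_derivative_le ((G d N).map (ev t l))
    rw [h2] at this
    simp only [Nat.zero_le, sup_of_le_left]
    omega
  have h3 := resultant_eq_prod_eval (FP d N t) (derivative ((G d N).map (ev t l)) - C l) (d ^ N)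
      hdeg (IsAlgClosed.splits _)
  rw [hf2, (monic_FP hd hN t).1.leadingCoeff, one_pow, one_mul] at h3
  have hev : ∀ z, (derivative ((G d N).map (ev t l)) - C l).eval z = P d t z N - l := by
    intro z
    rw [eval_sub, eval_C, ← eval_der_G d N t l z, Polynomial.derivative_map]
  rw [eval_Ql, Rr, ← resultant_map_map, hmapf, hmapg, h3]
  congr 1
  apply Multiset.map_congr rfl
  intro z _
  exact hev z

/-- The resultant as a product over the fixed points. -/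
lemma eval_Ql_fx {d N : ℕ} (hd : 2 ≤ d) (hN : 1 ≤ N) {t : ℂ}
    (hs : ∀ z, orb d t z N = z → P d t z N ≠ 1) (l : ℂ) :
    (Ql d N l).eval t = ∏ z ∈ Fx d N t, (P d t z N - l) := by
  rw [eval_Ql_prod hd hN, Fx, Finset.prod_eq_multiset_prod, Multiset.toFinset_val,
    (nodup_FP hs).dedup]

lemma Ql_ne_zero {d N : ℕ} (hd : 2 ≤ d) (hN : 1 ≤ N) {l : ℂ} (hl : ‖l‖ = 1) : Ql d N l ≠ 0 := by
  intro h
  have h1 : (Ql d N l).eval 0 = 0 := by rw [h, eval_zero]
  rw [eval_Ql, ev_Rr hd hN] at h1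
  obtain ⟨z, h2, h3⟩ := h1
  exact zero_case hd hN h2 (by rw [h3, hl])

/-- The parameter derivative of a multiplier. -/
lemma deriv_bound {d N : ℕ} {γ Z : ℂ → ℂ} {a b : ℂ} (hγ : HasDerivAt γ a 0)
    (hZ : HasDerivAt Z b 0) (hfix : ∀ᶠ s in 𝓝 (0 : ℂ), orb d (γ s) (Z s) N = Z s) {M : ℝ}
    (hM1 : ‖fderiv ℂ (fun p : ℂ × ℂ => orb d p.1 p.2 N) (γ 0, Z 0)‖ ≤ M)
    (hM2 : ‖fderiv ℂ (fun p : ℂ × ℂ => P d p.1 p.2 N) (γ 0, Z 0)‖ ≤ M)
    (hne : P d (γ 0) (Z 0) N ≠ 1) :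
    ‖deriv (fun s => P d (γ s) (Z s) N) 0‖ ≤
      M * ‖a‖ * (1 + M / ‖1 - P d (γ 0) (Z 0) N‖) := by
  have hM0 : 0 ≤ M := (norm_nonneg _).trans hM1
  set O' := fderiv ℂ (fun p : ℂ × ℂ => orb d p.1 p.2 N) (γ 0, Z 0) with hO'
  set P' := fderiv ℂ (fun p : ℂ × ℂ => P d p.1 p.2 N) (γ 0, Z 0) with hP'
  have hOd : HasFDerivAt (fun p : ℂ × ℂ => orb d p.1 p.2 N) O' (γ 0, Z 0) :=
    (((contDiff_OO d N).differentiable (by norm_num)) _).hasFDerivAt
  have hPd : HasFDerivAt (fun p : ℂ × ℂ => P d p.1 p.2 N) P' (γ 0, Z 0) :=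
    (((contDiff_PP d N).differentiable (by norm_num)) _).hasFDerivAt
  have hpair : HasDerivAt (fun s => (γ s, Z s)) (a, b) 0 := hγ.prodMk hZ
  have h1 : HasDerivAt (fun s => orb d (γ s) (Z s) N) (O' (a, b)) 0 :=
    HasFDerivAt.comp_hasDerivAt (f := fun s => (γ s, Z s)) 0 hOd hpair
  have h2 : HasDerivAt (fun s => P d (γ s) (Z s) N) (P' (a, b)) 0 :=
    HasFDerivAt.comp_hasDerivAt (f := fun s => (γ s, Z s)) 0 hPd hpair
  have h3 : HasDerivAt (fun s => orb d (γ s) (Z s) N) b 0 := hZ.congr_of_eventuallyEq hfix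
  have h4 : O' (a, b) = b := h1.unique h3
  have h5 : O' (0, 1) = P d (γ 0) (Z 0) N := by
    have hin : HasDerivAt (fun z : ℂ => (γ 0, z)) ((0, 1) : ℂ × ℂ) (Z 0) :=
      (hasDerivAt_const _ _).prodMk (hasDerivAt_id _)
    have h6 : HasDerivAt (fun z => orb d (γ 0) z N) (O' (0, 1)) (Z 0) :=
      HasFDerivAt.comp_hasDerivAt (f := fun z : ℂ => (γ 0, z)) (Z 0) hOd hin
    exact h6.unique (hasDerivAt_orb (Z 0) N)
  have h6 : O' (a, b) = O' (a, 0) + b * O' (0, 1) := by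
    have e : ((a, b) : ℂ × ℂ) = (a, 0) + b • (0, 1) := by
      rw [Prod.smul_mk, Prod.mk_add_mk, smul_zero, smul_eq_mul, mul_one, add_zero, zero_add]
    rw [e, map_add, map_smul, smul_eq_mul]
  have h7 : b * (1 - P d (γ 0) (Z 0) N) = O' (a, 0) := by
    rw [h4, h5] at h6
    linear_combination h6
  set D : ℝ := ‖1 - P d (γ 0) (Z 0) N‖ with hD
  have hD0 : 0 < D := norm_pos_iff.mpr (sub_ne_zero.mpr (Ne.symm hne))
  have h8 : ‖b‖ ≤ M * ‖a‖ / D := by
    rw [le_div_iff₀ hD0, hD, ← norm_mul, h7]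
    refine (O'.le_opNorm _).trans ?_
    have : ‖((a, 0) : ℂ × ℂ)‖ = ‖a‖ := by
      rw [Prod.norm_mk, norm_zero, max_eq_left (norm_nonneg _)]
    rw [this]
    gcongr
  rw [h2.deriv]
  have h9 : ‖((a, b) : ℂ × ℂ)‖ ≤ ‖a‖ + ‖b‖ := by
    rw [Prod.norm_mk]
    exact max_le (by linarith [norm_nonneg b]) (by linarith [norm_nonneg a])
  calc ‖P' (a, b)‖ ≤ ‖P'‖ * ‖((a, b) : ℂ × ℂ)‖ := P'.le_opNorm _
    _ ≤ M * (‖a‖ + ‖b‖) := by gcongr
    _ ≤ M * (‖a‖ + M * ‖a‖ / D) := by gcongr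
    _ = M * ‖a‖ * (1 + M / D) := by ring

/-- Discs near a parameter with a multiplier equal to `1`. -/
theorem cusp {d N : ℕ} (hd : 2 ≤ d) (hN : 1 ≤ N) {c₀ z₀ : ℂ} (hz : orb d c₀ z₀ N = z₀)
    (hP : P d c₀ z₀ N = 1) : ∃ C η : ℝ, 0 < C ∧ 0 < η ∧ ∀ γ : ℂ → ℂ,
      DifferentiableOn ℂ γ (ball 0 1) →
      (∀ s ∈ ball (0 : ℂ) 1, ∀ z, orb d (γ s) z N = z → 1 < ‖P d (γ s) z N‖) →
      ‖γ 0 - c₀‖ < η → ‖deriv γ 0‖ ≤ C * (‖γ 0 - c₀‖ * √‖γ 0 - c₀‖) := by
  obtain ⟨δ, ρ, K, hδ, hρ, hK, hdich⟩ := dich hd hN c₀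
  -- bounds of the derivatives
  have hcO : Continuous fun p : ℂ × ℂ => fderiv ℂ (fun p : ℂ × ℂ => orb d p.1 p.2 N) p :=
    (contDiff_OO d N).continuous_fderiv (by norm_num)
  have hcP : Continuous fun p : ℂ × ℂ => fderiv ℂ (fun p : ℂ × ℂ => P d p.1 p.2 N) p :=
    (contDiff_PP d N).continuous_fderiv (by norm_num)
  have hcomp : IsCompact (closedBall c₀ 1 ×ˢ closedBall (0 : ℂ) (4 + ‖c₀‖)) :=
    (isCompact_closedBall _ _).prod (isCompact_closedBall _ _)
  obtain ⟨M₁, hM₁⟩ := (hcomp.image hcO).isBounded.exists_norm_le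
  obtain ⟨M₂, hM₂⟩ := (hcomp.image hcP).isBounded.exists_norm_le
  set M : ℝ := max M₁ M₂ with hM
  -- the resultant
  set H : ℂ → ℂ := fun t => (Ql d N 1).eval t with hH
  have hHd : Differentiable ℂ H := (Ql d N 1).differentiable
  have hH0 : H c₀ = 0 := by
    simp only [hH]
    rw [eval_Ql, ev_Rr hd hN]
    exact ⟨z₀, hz, hP⟩
  have hHne : ¬ ∀ᶠ t in 𝓝 c₀, H t = 0 := by
    intro hev
    have h1 := hHd.differentiableOn.analyticOnNhd (s := univ) isOpen_univ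
    have h2 := h1.eqOn_zero_of_preconnected_of_eventuallyEq_zero isPreconnected_univ
      (mem_univ c₀) hev
    apply Ql_ne_zero hd hN (l := 1) norm_one
    apply Polynomial.funext
    intro t
    rw [eval_zero]
    exact h2 (mem_univ t)
  obtain ⟨hlog1, hlog2, -⟩ := an_log (hHd.analyticAt c₀) hH0 hHne
  obtain ⟨η₁, hη₁, hlog1'⟩ := Metric.eventually_nhds_iff.mp hlog1
  obtain ⟨η₂, hη₂, hlog2'⟩ := Metric.eventually_nhds_iff.mp hlog2
  set Dn : ℝ := (d : ℝ) ^ N with hDn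
  have hDn0 : 0 < Dn := by
    have : 0 < (d : ℝ) := by exact_mod_cast (by omega : 0 < d)
    positivity
  set C' : ℝ := |M| * (1 + |M| / δ) / δ with hC'
  have hC'0 : 0 ≤ C' := by positivity
  set η₃ : ℝ := 1 / (4 * (Dn * C' + 1)) with hη₃
  have hη₃0 : 0 < η₃ := by positivity
  refine ⟨4 * Dn * √K + 1, min (min ρ 1) (min (min η₁ η₂) η₃), by positivity, by
    refine lt_min (lt_min hρ one_pos) (lt_min (lt_min hη₁ hη₂) hη₃0), ?_⟩
  intro γ hγ hrep hclose
  rw [lt_min_iff, lt_min_iff, lt_min_iff, lt_min_iff] at hclose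
  obtain ⟨⟨hc1, hc2⟩, ⟨hc3, hc4⟩, hc5⟩ := hclose
  have h0 : (0 : ℂ) ∈ ball (0 : ℂ) 1 := mem_ball_self one_pos
  set t := γ 0 with ht
  set x : ℝ := ‖t - c₀‖ with hx
  have hrep' : ∀ s ∈ ball (0 : ℂ) 1, ∀ z, orb d (γ s) z N = z → P d (γ s) z N ≠ 1 := by
    intro s hs z hz h1
    have := hrep s hs z hz
    rw [h1, norm_one] at this
    exact lt_irrefl _ this
  have htc : t ≠ c₀ := by
    intro h
    exact hrep' 0 h0 z₀ (by rw [← ht, h]; exact hz) (by rw [← ht, h]; exact hP)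
  have hx0 : 0 < x := norm_pos_iff.mpr (sub_ne_zero.mpr htc)
  obtain ⟨Z, hZ1, hZ2, hZ3⟩ := sum_branch hd hN hγ hrep
  set A : ℝ := ‖deriv γ 0‖ with hA
  have hγ0 : HasDerivAt γ (deriv γ 0) 0 :=
    ((hγ 0 h0).differentiableAt (isOpen_ball.mem_nhds h0)).hasDerivAt
  set lam : ℂ → ℂ → ℂ := fun u s => P d (γ s) (Z u s) N with hlam
  have hlamd : ∀ u ∈ Fx d N t, DifferentiableAt ℂ (lam u) 0 := fun u hu =>
    (diffOn_P hγ (hZ1 u hu).1 N 0 h0).differentiableAt (isOpen_ball.mem_nhds h0)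
  have hlamne : ∀ u ∈ Fx d N t, ∀ s ∈ ball (0 : ℂ) 1, lam u s - 1 ≠ 0 := fun u hu s hs =>
    sub_ne_zero.mpr (hrep' s hs _ ((hZ1 u hu).2.2 s hs))
  have hlam0 : ∀ u ∈ Fx d N t, lam u 0 = P d t u N := by
    intro u hu
    simp only [hlam]
    rw [(hZ1 u hu).2.1]
  -- the product formula along the disc
  have hprod : ∀ s ∈ ball (0 : ℂ) 1, H (γ s) = ∏ u ∈ Fx d N t, (lam u s - 1) := by
    intro s hs
    simp only [hH]
    rw [eval_Ql_fx hd hN (hrep' s hs)]
    have himg : (Fx d N t).image (fun u => Z u s) = Fx d N (γ s) := by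
      symm
      apply Finset.eq_of_subset_of_card_le
      · intro z hz
        rw [mem_Fx hd hN] at hz
        obtain ⟨u, hu, h⟩ := hZ2 s hs z hz
        exact Finset.mem_image.mpr ⟨u, hu, h⟩
      · refine Finset.card_image_le.trans ?_
        rw [card_Fx hd hN (hrep' s hs), card_Fx hd hN (hrep' 0 h0)]
    have hinj : Set.InjOn (fun u => Z u s) (Fx d N t) := by
      apply Finset.injOn_of_card_image_eq
      rw [himg, card_Fx hd hN (hrep' s hs), card_Fx hd hN (hrep' 0 h0)]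
    rw [← himg, Finset.prod_image hinj]
  have hlogd : deriv H t * deriv γ 0 / H t =
      ∑ u ∈ Fx d N t, deriv (lam u) 0 / (lam u 0 - 1) := by
    have h1 : logDeriv (fun s => H (γ s)) 0 = deriv H t * deriv γ 0 / H t := by
      rw [logDeriv_apply]
      have h2 : HasDerivAt (fun s => H (γ s)) (deriv H (γ 0) * deriv γ 0) 0 :=
        HasDerivAt.comp (0 : ℂ) (hHd (γ 0)).hasDerivAt hγ0
      rw [h2.deriv]
    rw [← h1]
    have h2 : logDeriv (fun s => H (γ s)) 0 = logDeriv (fun s => ∏ u ∈ Fx d N t, (lam u s - 1)) 0 := by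
      rw [logDeriv_apply, logDeriv_apply, hprod 0 h0]
      congr 1
      apply Filter.EventuallyEq.deriv_eq
      filter_upwards [isOpen_ball.mem_nhds h0] with s hs using hprod s hs
    rw [h2, logDeriv_prod (f := fun u s => lam u s - 1) (fun u hu => hlamne u hu 0 h0)
      (fun u hu => (hlamd u hu).sub_const 1)]
    apply Finset.sum_congr rfl
    intro u hu
    rw [logDeriv_apply, deriv_sub_const]
  -- the terms
  have hterm : ∀ u ∈ Fx d N t, ‖deriv (lam u) 0 / (lam u 0 - 1)‖ ≤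
      √(K * x) * (‖deriv (fun s => P d (γ s) (Z u s) N) 0‖ / ‖1 - P d t u N‖ ^ 2) + A * C' := by
    intro u hu
    have hfix : orb d t u N = u := (mem_Fx hd hN).mp hu
    have hne1 : P d t u N ≠ 1 := hrep' 0 h0 u hfix
    have hpos : 0 < ‖1 - P d t u N‖ := norm_pos_iff.mpr (sub_ne_zero.mpr (Ne.symm hne1))
    rw [hlam0 u hu, norm_div, norm_sub_rev (P d t u N) 1]
    change ‖deriv (fun s => P d (γ s) (Z u s) N) 0‖ / ‖1 - P d t u N‖ ≤ _
    set y := ‖deriv (fun s => P d (γ s) (Z u s) N) 0‖ with hy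
    have hy0 : 0 ≤ y := norm_nonneg _
    rcases hdich t hc1 u hfix with h | h
    · rw [norm_sub_rev] at h
      have h1 : ‖1 - P d t u N‖ ≤ √(K * x) := by
        rw [← Real.sqrt_sq hpos.le]
        exact Real.sqrt_le_sqrt h
      have h2 : y / ‖1 - P d t u N‖ = ‖1 - P d t u N‖ * (y / ‖1 - P d t u N‖ ^ 2) := by
        field_simp
      rw [h2]
      have h3 : 0 ≤ A * C' := by positivity
      have h4 : ‖1 - P d t u N‖ * (y / ‖1 - P d t u N‖ ^ 2) ≤
          √(K * x) * (y / ‖1 - P d t u N‖ ^ 2) := by gcongr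
      linarith
    · rw [norm_sub_rev] at h
      have hmem : ((t, u) : ℂ × ℂ) ∈ closedBall c₀ 1 ×ˢ closedBall (0 : ℂ) (4 + ‖c₀‖) := by
        refine ⟨?_, ?_⟩
        · rw [mem_closedBall_iff_norm]; exact hc2.le
        · rw [mem_closedBall_zero_iff]
          have h5 := fix_bdd hd hN hfix
          have h6 : ‖t‖ ≤ ‖c₀‖ + 1 := by
            have h7 : t = c₀ + (t - c₀) := by ring
            rw [h7]
            exact (norm_add_le _ _).trans (by linarith)
          exact (by linarith : ‖u‖ ≤ 4 + ‖c₀‖)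
      have hZu0 : Z u 0 = u := (hZ1 u hu).2.1
      have hMM1 : ‖fderiv ℂ (fun p : ℂ × ℂ => orb d p.1 p.2 N) (γ 0, Z u 0)‖ ≤ |M| := by
        rw [hZu0]
        exact (hM₁ _ (mem_image_of_mem _ hmem)).trans ((le_max_left _ _).trans (le_abs_self _))
      have hMM2 : ‖fderiv ℂ (fun p : ℂ × ℂ => P d p.1 p.2 N) (γ 0, Z u 0)‖ ≤ |M| := by
        rw [hZu0]
        exact (hM₂ _ (mem_image_of_mem _ hmem)).trans ((le_max_right _ _).trans (le_abs_self _))
      have h5 := deriv_bound (N := N) hγ0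
        (((hZ1 u hu).1 0 h0).differentiableAt (isOpen_ball.mem_nhds h0)).hasDerivAt
        (by filter_upwards [isOpen_ball.mem_nhds h0] with s hs using (hZ1 u hu).2.2 s hs)
        hMM1 hMM2 (by rw [hZu0]; exact hne1)
      rw [hZu0] at h5
      change y ≤ |M| * A * (1 + |M| / ‖1 - P d t u N‖) at h5
      have h6 : y / ‖1 - P d t u N‖ ≤ A * C' := by
        calc y / ‖1 - P d t u N‖ ≤ |M| * A * (1 + |M| / ‖1 - P d t u N‖) / ‖1 - P d t u N‖ := by
              gcongr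
          _ ≤ |M| * A * (1 + |M| / δ) / δ := by gcongr
          _ = A * C' := by rw [hC']; ring
      have h7 : 0 ≤ √(K * x) * (y / ‖1 - P d t u N‖ ^ 2) := by positivity
      linarith
  have hsum : ‖deriv H t * deriv γ 0 / H t‖ ≤ √(K * x) * Dn + Dn * (A * C') := by
    rw [hlogd]
    calc ‖∑ u ∈ Fx d N t, deriv (lam u) 0 / (lam u 0 - 1)‖
        ≤ ∑ u ∈ Fx d N t, ‖deriv (lam u) 0 / (lam u 0 - 1)‖ := norm_sum_le _ _
      _ ≤ ∑ u ∈ Fx d N t, (√(K * x) *
            (‖deriv (fun s => P d (γ s) (Z u s) N) 0‖ / ‖1 - P d t u N‖ ^ 2) + A * C') :=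
          Finset.sum_le_sum hterm
      _ = √(K * x) * ∑ u ∈ Fx d N t,
            (‖deriv (fun s => P d (γ s) (Z u s) N) 0‖ / ‖1 - P d t u N‖ ^ 2) +
            Dn * (A * C') := by
          rw [Finset.sum_add_distrib, ← Finset.mul_sum, Finset.sum_const,
            card_Fx hd hN (hrep' 0 h0), nsmul_eq_mul, hDn]
          push_cast
          rfl
      _ ≤ √(K * x) * Dn + Dn * (A * C') := by gcongr
  -- the lower bound
  have hHt : H t ≠ 0 := hlog1' (by rw [dist_eq_norm]; exact hc3) htc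
  have h1 := hlog2' (show dist t c₀ < η₂ by rw [dist_eq_norm]; exact hc4)
  have hHpos : 0 < ‖H t‖ := norm_pos_iff.mpr hHt
  rw [norm_div, norm_mul, div_le_iff₀ hHpos] at hsum
  have h2 : A * ‖H t‖ ≤ 2 * x * ((√(K * x) * Dn + Dn * (A * C')) * ‖H t‖) := by
    calc A * ‖H t‖ ≤ A * (2 * (x * ‖deriv H t‖)) := by gcongr
      _ = 2 * x * (‖deriv H t‖ * A) := by ring
      _ ≤ _ := by gcongr
  have h3 : A ≤ 2 * x * (√(K * x) * Dn + Dn * (A * C')) := by
    have : A * ‖H t‖ ≤ (2 * x * (√(K * x) * Dn + Dn * (A * C'))) * ‖H t‖ := by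
      rw [mul_assoc (2 * x)]; exact h2
    exact le_of_mul_le_mul_right this hHpos
  have h4 : 2 * x * (Dn * (A * C')) ≤ A / 2 := by
    have h5 : x * (4 * (Dn * C' + 1)) ≤ 1 := by
      rw [hη₃, lt_div_iff₀ (by positivity)] at hc5
      linarith
    have hA0 : 0 ≤ A := norm_nonneg _
    nlinarith [mul_nonneg hA0 hx0.le]
  have h5 : √(K * x) = √K * √x := Real.sqrt_mul hK x
  rw [h5] at h3
  have h6 : 0 ≤ x * √x := by positivity
  nlinarith

end Pool.Agent.T2H09.PB
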