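import Pool.Agent.T2H09.IX.Ineq
import Pool.Agent.T2H09.PB.An

/-!
# The multipliers near a parameter: close to `1` or far from `1`
-/

set_option autoImplicit false
open Set Filter Topology Metric Polynomial

namespace Pool.Agent.T2H09.PB

open Pool.Agent.W746.LD Pool.Agent.TH363.QI Pool.Agent.T2H09.IX

lemma contDiff_OO (d i : ℕ) : ContDiff ℂ 2 (fun p : ℂ × ℂ => orb d p.1 p.2 i) := by
  induction i with
  | zero => simp only [orb_zero]; exact contDiff_snd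
  | succ i ih =>
    simp only [orb_succ]
    exact (ih.pow d).add contDiff_fst

lemma contDiff_PP (d i : ℕ) : ContDiff ℂ 2 (fun p : ℂ × ℂ => P d p.1 p.2 i) := by
  induction i with
  | zero => simp only [P_zero]; exact contDiff_const
  | succ i ih =>
    simp only [P_succ]
    exact ih.mul (contDiff_const.mul ((contDiff_OO d i).pow (d - 1)))

lemma fix_bdd {d N : ℕ} (hd : 2 ≤ d) (hN : 1 ≤ N) {t z : ℂ} (hz : orb d t z N = z) :
    ‖z‖ < 3 + ‖t‖ := by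
  by_contra h
  rw [not_lt] at h
  have h1 := growth' hd hN h
  rw [hz, sub_self, norm_zero] at h1
  have h2 : 0 ≤ ‖t‖ := norm_nonneg t
  linarith

/-- The local estimate at a multiple root. -/
lemma local_multiple {d N : ℕ} (hd : 2 ≤ d) (hN : 1 ≤ N) {c₀ w : ℂ} (hw : orb d c₀ w N = w)
    (hw1 : P d c₀ w N = 1) : ∃ K : ℝ, 0 ≤ K ∧ ∀ᶠ p : ℂ × ℂ in 𝓝 (c₀, w),
      orb d p.1 p.2 N = p.2 → ‖P d p.1 p.2 N - 1‖ ^ 2 ≤ K * ‖p.1 - c₀‖ := by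
  -- the function at `c₀`
  set g : ℂ → ℂ := fun z => orb d c₀ z N - z with hg
  have hder : ∀ z, HasDerivAt g (P d c₀ z N - 1) z := fun z =>
    (hasDerivAt_orb z N).sub (hasDerivAt_id z)
  have hgd : Differentiable ℂ g := fun z => (hder z).differentiableAt
  have hga : AnalyticAt ℂ g w := hgd.analyticAt w
  have hg0 : g w = 0 := by simp only [hg]; rw [hw, sub_self]
  have hg1 : deriv g w = 0 := by rw [(hder w).deriv, hw1, sub_self]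
  have hne : ¬ ∀ᶠ z in 𝓝 w, g z = 0 := by
    intro hev
    have h1 := hgd.differentiableOn.analyticOnNhd (s := univ) isOpen_univ
    have h2 := h1.eqOn_zero_of_preconnected_of_eventuallyEq_zero isPreconnected_univ (mem_univ w)
      hev
    have h3 := h2 (mem_univ ((4 + ‖c₀‖ : ℝ) : ℂ))
    simp only [Pi.zero_apply] at h3
    have hn : ‖((4 + ‖c₀‖ : ℝ) : ℂ)‖ = 4 + ‖c₀‖ := by
      rw [Complex.norm_real, Real.norm_eq_abs, abs_of_pos (by positivity)]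
    have h4 := growth' hd hN (t := c₀) (z := ((4 + ‖c₀‖ : ℝ) : ℂ)) (by rw [hn]; linarith)
    have h5 : orb d c₀ ((4 + ‖c₀‖ : ℝ) : ℂ) N - ((4 + ‖c₀‖ : ℝ) : ℂ) = 0 := h3
    rw [h5, norm_zero, hn] at h4
    have := norm_nonneg c₀
    linarith
  obtain ⟨K₁, hK₁, hsq⟩ := an_sq hga hg0 hg1 hne
  -- Lipschitz bounds
  obtain ⟨L₁, U₁, hU₁, hL₁⟩ := (((contDiff_OO d N).of_le (by norm_num)).contDiffAt
    (x := (c₀, w))).exists_lipschitzOnWith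
  obtain ⟨L₂, U₂, hU₂, hL₂⟩ := (((contDiff_PP d N).of_le (by norm_num)).contDiffAt
    (x := (c₀, w))).exists_lipschitzOnWith
  refine ⟨2 * K₁ * L₁ + 2 * L₂ ^ 2, by positivity, ?_⟩
  have hproj : Tendsto (fun p : ℂ × ℂ => (c₀, p.2)) (𝓝 (c₀, w)) (𝓝 (c₀, w)) := by
    have : Continuous fun p : ℂ × ℂ => (c₀, p.2) := by fun_prop
    exact this.tendsto (c₀, w)
  have hsnd : Tendsto (fun p : ℂ × ℂ => p.2) (𝓝 (c₀, w)) (𝓝 w) := continuous_snd.tendsto (c₀, w)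
  have hfst : Tendsto (fun p : ℂ × ℂ => p.1) (𝓝 (c₀, w)) (𝓝 c₀) := continuous_fst.tendsto (c₀, w)
  filter_upwards [hU₁, hU₂, hproj hU₁, hproj hU₂, hsnd.eventually hsq,
    hfst.eventually (ball_mem_nhds c₀ one_pos)] with p h1 h2 h3 h4 h5 h6 hp
  rw [(hder p.2).deriv] at h5
  rw [dist_eq_norm] at h6
  have h7 : ‖g p.2‖ ≤ L₁ * ‖p.1 - c₀‖ := by
    have h8 := hL₁.dist_le_mul _ h3 _ h1
    rw [dist_eq_norm] at h8
    simp only at h8
    rw [hp] at h8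
    refine h8.trans (le_of_eq ?_)
    congr 1
    rw [Prod.dist_eq]
    simp only [dist_self]
    rw [max_eq_left dist_nonneg, dist_comm, dist_eq_norm]
  have h8 : ‖P d p.1 p.2 N - P d c₀ p.2 N‖ ≤ L₂ * ‖p.1 - c₀‖ := by
    have h9 := hL₂.dist_le_mul _ h2 _ h4
    rw [dist_eq_norm] at h9
    refine h9.trans (le_of_eq ?_)
    congr 1
    rw [Prod.dist_eq]
    simp only [dist_self]
    rw [max_eq_left dist_nonneg, dist_eq_norm]
  have h9 : ‖P d p.1 p.2 N - 1‖ ≤ ‖P d c₀ p.2 N - 1‖ + L₂ * ‖p.1 - c₀‖ := by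
    have e : P d p.1 p.2 N - 1 = (P d c₀ p.2 N - 1) + (P d p.1 p.2 N - P d c₀ p.2 N) := by ring
    rw [e]
    exact (norm_add_le _ _).trans (by linarith)
  have hx0 : 0 ≤ ‖p.1 - c₀‖ := norm_nonneg _
  have hx2 : ‖p.1 - c₀‖ ^ 2 ≤ ‖p.1 - c₀‖ := by nlinarith
  have hL0 : (0 : ℝ) ≤ L₂ := L₂.coe_nonneg
  have hL1 : (0 : ℝ) ≤ L₁ := L₁.coe_nonneg
  calc ‖P d p.1 p.2 N - 1‖ ^ 2 ≤ (‖P d c₀ p.2 N - 1‖ + L₂ * ‖p.1 - c₀‖) ^ 2 := by gcongr
    _ ≤ 2 * ‖P d c₀ p.2 N - 1‖ ^ 2 + 2 * (L₂ * ‖p.1 - c₀‖) ^ 2 := by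
        nlinarith [sq_nonneg (‖P d c₀ p.2 N - 1‖ - L₂ * ‖p.1 - c₀‖)]
    _ ≤ 2 * (K₁ * ‖g p.2‖) + 2 * (L₂ ^ 2 * ‖p.1 - c₀‖) := by
        have : (L₂ * ‖p.1 - c₀‖) ^ 2 ≤ L₂ ^ 2 * ‖p.1 - c₀‖ := by
          rw [mul_pow]; gcongr
        linarith
    _ ≤ 2 * (K₁ * (L₁ * ‖p.1 - c₀‖)) + 2 * (L₂ ^ 2 * ‖p.1 - c₀‖) := by gcongr
    _ = (2 * K₁ * L₁ + 2 * L₂ ^ 2) * ‖p.1 - c₀‖ := by ring

/-- The dichotomy. -/
theorem dich {d N : ℕ} (hd : 2 ≤ d) (hN : 1 ≤ N) (c₀ : ℂ) : ∃ δ ρ K : ℝ, 0 < δ ∧ 0 < ρ ∧ 0 ≤ K ∧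
    ∀ t : ℂ, ‖t - c₀‖ < ρ → ∀ z, orb d t z N = z →
      ‖P d t z N - 1‖ ^ 2 ≤ K * ‖t - c₀‖ ∨ δ ≤ ‖P d t z N - 1‖ := by
  have hcO : Continuous fun p : ℂ × ℂ => orb d p.1 p.2 N := (contDiff_OO d N).continuous
  have hcP : Continuous fun p : ℂ × ℂ => P d p.1 p.2 N := (contDiff_PP d N).continuous
  have hcomp : IsCompact (closedBall (0 : ℂ) (4 + ‖c₀‖)) := isCompact_closedBall _ _
  have key : ∃ δ ρ K : ℝ, 0 < δ ∧ 0 < ρ ∧ 0 ≤ K ∧ ∀ z ∈ closedBall (0 : ℂ) (4 + ‖c₀‖),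
      ∀ t : ℂ, ‖t - c₀‖ < ρ → orb d t z N = z →
        ‖P d t z N - 1‖ ^ 2 ≤ K * ‖t - c₀‖ ∨ δ ≤ ‖P d t z N - 1‖ := by
    refine hcomp.induction_on (p := fun s => ∃ δ ρ K : ℝ, 0 < δ ∧ 0 < ρ ∧ 0 ≤ K ∧ ∀ z ∈ s,
      ∀ t : ℂ, ‖t - c₀‖ < ρ → orb d t z N = z →
        ‖P d t z N - 1‖ ^ 2 ≤ K * ‖t - c₀‖ ∨ δ ≤ ‖P d t z N - 1‖) ?_ ?_ ?_ ?_
    · exact ⟨1, 1, 0, one_pos, one_pos, le_rfl, fun z hz => absurd hz (notMem_empty z)⟩
    · rintro s s' hss ⟨δ, ρ, K, h1, h2, h3, h4⟩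
      exact ⟨δ, ρ, K, h1, h2, h3, fun z hz => h4 z (hss hz)⟩
    · rintro s s' ⟨δ, ρ, K, h1, h2, h3, h4⟩ ⟨δ', ρ', K', h1', h2', h3', h4'⟩
      refine ⟨min δ δ', min ρ ρ', max K K', lt_min h1 h1', lt_min h2 h2', le_max_of_le_left h3, ?_⟩
      intro z hz t ht hzt
      have hx0 : 0 ≤ ‖t - c₀‖ := norm_nonneg _
      rcases hz with hz | hz
      · rcases h4 z hz t (lt_of_lt_of_le ht (min_le_left _ _)) hzt with h | h
        · exact Or.inl (h.trans (mul_le_mul_of_nonneg_right (le_max_left _ _) hx0))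
        · exact Or.inr ((min_le_left _ _).trans h)
      · rcases h4' z hz t (lt_of_lt_of_le ht (min_le_right _ _)) hzt with h | h
        · exact Or.inl (h.trans (mul_le_mul_of_nonneg_right (le_max_right _ _) hx0))
        · exact Or.inr ((min_le_right _ _).trans h)
    · intro w _
      -- the local statement
      have hloc : ∃ δ K : ℝ, 0 < δ ∧ 0 ≤ K ∧ ∀ᶠ p : ℂ × ℂ in 𝓝 (c₀, w), orb d p.1 p.2 N = p.2 →
          ‖P d p.1 p.2 N - 1‖ ^ 2 ≤ K * ‖p.1 - c₀‖ ∨ δ ≤ ‖P d p.1 p.2 N - 1‖ := by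
        by_cases hw : orb d c₀ w N = w
        · by_cases hw1 : P d c₀ w N = 1
          · obtain ⟨K, hK, hev⟩ := local_multiple hd hN hw hw1
            exact ⟨1, K, one_pos, hK, hev.mono fun p hp h => Or.inl (hp h)⟩
          · have hpos : 0 < ‖P d c₀ w N - 1‖ := norm_pos_iff.mpr (sub_ne_zero.mpr hw1)
            have hc : ContinuousAt (fun p : ℂ × ℂ => ‖P d p.1 p.2 N - 1‖) (c₀, w) :=
              (hcP.sub continuous_const).norm.continuousAt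
            have hev := hc.eventually (lt_mem_nhds
              (show ‖P d c₀ w N - 1‖ / 2 < ‖P d c₀ w N - 1‖ by linarith))
            exact ⟨‖P d c₀ w N - 1‖ / 2, 0, by linarith, le_rfl,
              hev.mono fun p hp _ => Or.inr (le_of_lt hp)⟩
        · have hc : ContinuousAt (fun p : ℂ × ℂ => orb d p.1 p.2 N - p.2) (c₀, w) :=
            (hcO.sub continuous_snd).continuousAt
          have hev := hc.eventually_ne (sub_ne_zero.mpr hw)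
          exact ⟨1, 0, one_pos, le_rfl,
            hev.mono fun p hp h => absurd (sub_eq_zero.mpr h) hp⟩
      obtain ⟨δ, K, hδ, hK, hev⟩ := hloc
      rw [Metric.eventually_nhds_iff] at hev
      obtain ⟨ρ, hρ, h⟩ := hev
      refine ⟨ball w ρ, mem_nhdsWithin_of_mem_nhds (ball_mem_nhds w hρ), δ, ρ, K, hδ, hρ, hK, ?_⟩
      intro z hz t ht hzt
      refine h (y := (t, z)) ?_ hzt
      rw [Prod.dist_eq, max_lt_iff]
      exact ⟨by rw [dist_eq_norm]; exact ht, hz⟩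
  obtain ⟨δ, ρ, K, h1, h2, h3, h4⟩ := key
  refine ⟨δ, min ρ 1, K, h1, lt_min h2 one_pos, h3, fun t ht z hz => ?_⟩
  refine h4 z ?_ t (lt_of_lt_of_le ht (min_le_left _ _)) hz
  rw [mem_closedBall_zero_iff]
  have h5 := fix_bdd hd hN hz
  have h6 : ‖t‖ ≤ ‖c₀‖ + 1 := by
    have h7 : t = c₀ + (t - c₀) := by ring
    rw [h7]
    refine (norm_add_le _ _).trans ?_
    have := lt_of_lt_of_le ht (min_le_right ρ 1)
    linarith
  linarith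

end Pool.Agent.T2H09.PB
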