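import Pool.Agent.T2H09.PB.Cusp

/-!
# Satellite parabolic parameters, and the distance
-/

set_option autoImplicit false
open Set Filter Topology Metric Polynomial

namespace Pool.Agent.T2H09.PB

open Pool.Agent.W746.LD Pool.Agent.TH363.QI Pool.Agent.T2H09.IX Pool.Agent.T2H09.DH N62a1eb23

lemma contDiff_OO' (d i : ℕ) (k : ℕ∞) : ContDiff ℂ k (fun p : ℂ × ℂ => orb d p.1 p.2 i) := by
  induction i with
  | zero => simp only [orb_zero]; exact contDiff_snd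
  | succ i ih =>
    simp only [orb_succ]
    exact (ih.pow d).add contDiff_fst

/-- The continuation of a point with a multiplier different from `1`. -/
lemma continuation {d N : ℕ} {c₀ z₀ : ℂ} (hz : orb d c₀ z₀ N = z₀) (hP : P d c₀ z₀ N ≠ 1) :
    ∃ Z : ℂ → ℂ, Z c₀ = z₀ ∧ (∀ᶠ t in 𝓝 c₀, DifferentiableAt ℂ Z t) ∧
      ∀ᶠ t in 𝓝 c₀, orb d t (Z t) N = Z t := by
  set F : ℂ × ℂ → ℂ := fun p => orb d p.1 p.2 N - p.2 with hF
  have hFc : ContDiffAt ℂ 1 F (c₀, z₀) :=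
    ((contDiff_OO' d N 1).sub contDiff_snd).contDiffAt
  have hFz : F (c₀, z₀) = 0 := by simp only [hF]; rw [hz, sub_self]
  have hdF : HasFDerivAt F (fderiv ℂ F (c₀, z₀)) (c₀, z₀) :=
    (hFc.differentiableAt (by norm_num)).hasFDerivAt
  have h01 : (fderiv ℂ F (c₀, z₀)) (0, 1) = P d c₀ z₀ N - 1 := by
    have hin : HasDerivAt (fun z : ℂ => (c₀, z)) ((0, 1) : ℂ × ℂ) z₀ :=
      (hasDerivAt_const _ _).prodMk (hasDerivAt_id _)
    have h6 : HasDerivAt (fun z => orb d c₀ z N - z) ((fderiv ℂ F (c₀, z₀)) (0, 1)) z₀ :=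
      HasFDerivAt.comp_hasDerivAt (f := fun z : ℂ => (c₀, z)) z₀ hdF hin
    exact h6.unique ((hasDerivAt_orb z₀ N).sub (hasDerivAt_id z₀))
  have hinv : (fderiv ℂ F (c₀, z₀) ∘L .inr ℂ ℂ ℂ).IsInvertible := by
    have hne : P d c₀ z₀ N - 1 ≠ 0 := sub_ne_zero.mpr hP
    refine ⟨ContinuousLinearEquiv.unitsEquivAut ℂ (Units.mk0 _ hne), ?_⟩
    apply ContinuousLinearMap.ext_ring
    simp only [ContinuousLinearEquiv.coe_coe, ContinuousLinearEquiv.unitsEquivAut_apply,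
      Units.val_mk0, one_mul, ContinuousLinearMap.comp_apply, ContinuousLinearMap.inr_apply, h01]
  refine ⟨hFc.implicitFunction (by norm_num) hinv, hFc.implicitFunction_apply_self _ hinv, ?_, ?_⟩
  · have h1 := hFc.contDiffAt_implicitFunction (by norm_num) hinv
    have h2 := h1.eventually (by norm_num)
    filter_upwards [h2] with t ht using ht.differentiableAt (by norm_num)
  · filter_upwards [hFc.eventually_apply_implicitFunction (by norm_num) hinv] with t ht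
    rw [hFz] at ht
    exact sub_eq_zero.mp ht

/-- Discs near a satellite parabolic parameter. -/
theorem satellite {d n q : ℕ} (hd : 2 ≤ d) (hn : 1 ≤ n) (hq : 1 ≤ q) {c₀ z₀ : ℂ}
    (hz : orb d c₀ z₀ n = z₀) (hP : P d c₀ z₀ n ≠ 1) (hPq : P d c₀ z₀ n ^ q = 1) :
    ∃ C η : ℝ, 0 < C ∧ 0 < η ∧ ∀ γ : ℂ → ℂ, DifferentiableOn ℂ γ (ball 0 1) →
      (∀ s ∈ ball (0 : ℂ) 1, ∀ (N : ℕ) (z : ℂ), 1 ≤ N → orb d (γ s) z N = z →
        1 < ‖P d (γ s) z N‖) →
      ‖γ 0 - c₀‖ < η → ‖deriv γ 0‖ ≤ C * ‖γ 0 - c₀‖ ^ 2 := by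
  obtain ⟨Z, hZ0, hZd, hZf⟩ := continuation hz hP
  have hN : 1 ≤ n * q := Nat.mul_pos hn hq
  -- the multiplier
  set g : ℂ → ℂ := fun t => P d t (Z t) n ^ q - 1 with hg
  have hgd : ∀ᶠ t in 𝓝 c₀, DifferentiableAt ℂ g t := by
    have hPd : Differentiable ℂ (fun p : ℂ × ℂ => P d p.1 p.2 n) :=
      (contDiff_PP d n).differentiable (by norm_num)
    filter_upwards [hZd] with t ht
    have h1 : DifferentiableAt ℂ (fun t => (t, Z t)) t := differentiableAt_id.prodMk ht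
    have h2 : DifferentiableAt ℂ (fun t => P d t (Z t) n) t :=
      DifferentiableAt.comp (f := fun t => (t, Z t)) t (hPd (t, Z t)) h1
    exact (h2.pow q).sub_const 1
  have hga : AnalyticAt ℂ g c₀ := Complex.analyticAt_iff_eventually_differentiableAt.mpr hgd
  have hg0 : g c₀ = 0 := by simp only [hg]; rw [hZ0, hPq, sub_self]
  have hgne : ¬ ∀ᶠ t in 𝓝 c₀, g t = 0 := by
    intro hev
    -- the product of the resultants at the roots of unity
    set Qp : ℂ[X] := ∏ ζ ∈ nthRootsFinset q (1 : ℂ), Ql d n ζ with hQ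
    have hnorm : ∀ ζ ∈ nthRootsFinset q (1 : ℂ), ‖ζ‖ = 1 := by
      intro ζ hζ
      rw [mem_nthRootsFinset (by omega)] at hζ
      exact Complex.norm_eq_one_of_pow_eq_one hζ (by omega)
    have hQ0 : Qp ≠ 0 := Finset.prod_ne_zero_iff.mpr fun ζ hζ => Ql_ne_zero hd hn (hnorm ζ hζ)
    have hev2 : ∀ᶠ t in 𝓝 c₀, Qp.eval t = 0 := by
      filter_upwards [hev, hZf] with t h1 h2
      rw [hQ, eval_prod]
      apply Finset.prod_eq_zero (i := P d t (Z t) n)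
      · rw [mem_nthRootsFinset (by omega)]
        exact sub_eq_zero.mp h1
      · rw [eval_Ql, ev_Rr hd hn]
        exact ⟨Z t, h2, rfl⟩
    have hfin : {t : ℂ | Qp.eval t = 0}.Finite := by
      have := Qp.roots.toFinset.finite_toSet
      refine this.subset fun t ht => ?_
      rw [Finset.mem_coe, Multiset.mem_toFinset, mem_roots hQ0]
      exact ht
    exact (infinite_of_mem_nhds c₀ hev2) hfin
  obtain ⟨hlog1, hlog2, C₁, hC₁, hlog3⟩ := an_log hga hg0 hgne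
  have hZc : ∀ᶠ t in 𝓝 c₀, ContinuousAt Z t := hZd.mono fun t ht => ht.continuousAt
  have hall := (hlog1.and (hlog2.and hlog3)).and (hgd.and (hZc.and hZf.eventually_nhds))
  obtain ⟨η, hη, h⟩ := Metric.eventually_nhds_iff.mp hall
  have hd0 : 0 < (d : ℝ) := by exact_mod_cast (by omega : 0 < d)
  refine ⟨2 * (d : ℝ) ^ (n * q) * C₁, η, by positivity, hη, ?_⟩
  intro γ hγ hrep hclose
  have h0 : (0 : ℂ) ∈ ball (0 : ℂ) 1 := mem_ball_self one_pos
  set t := γ 0 with ht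
  obtain ⟨⟨k1, k2, k3⟩, k4, k5, k6⟩ := h (show dist t c₀ < η by rw [dist_eq_norm]; exact hclose)
  have htc : t ≠ c₀ := by
    intro h
    have h1 := hrep 0 h0 (n * q) z₀ hN (by
      rw [← ht, h]; exact (P_mul hz q).1)
    rw [← ht, h, (P_mul hz q).2, hPq, norm_one] at h1
    exact lt_irrefl _ h1
  have hγ0 : HasDerivAt γ (deriv γ 0) 0 :=
    ((hγ 0 h0).differentiableAt (isOpen_ball.mem_nhds h0)).hasDerivAt
  have hγt : Tendsto γ (𝓝 0) (𝓝 t) := hγ0.continuousAt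
  have hfixn : ∀ᶠ s in 𝓝 (0 : ℂ), orb d (γ s) (Z (γ s)) n = Z (γ s) := hγt.eventually k6
  have h1 := disc hd hN hγ (fun s hs z hz => hrep s hs (n * q) z hN hz) (ι := Unit) {()}
    (fun _ s => Z (γ s))
    (fun _ _ => ContinuousAt.comp (f := γ) k5 hγ0.continuousAt)
    (fun _ _ => by filter_upwards [hfixn] with s hs using (P_mul hs q).1)
    (by simp)
  rw [Finset.sum_singleton] at h1
  have heq : (fun s => P d (γ s) (Z (γ s)) (n * q)) =ᶠ[𝓝 0] fun s => g (γ s) + 1 := by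
    filter_upwards [hfixn] with s hs
    simp only [hg]
    rw [(P_mul hs q).2, sub_add_cancel]
  have hval : P d t (Z t) (n * q) = g t + 1 := heq.self_of_nhds
  have hder : deriv (fun s => P d (γ s) (Z (γ s)) (n * q)) 0 = deriv g t * deriv γ 0 := by
    rw [heq.deriv_eq]
    have h2 : HasDerivAt (fun s => g (γ s)) (deriv g (γ 0) * deriv γ 0) 0 :=
      HasDerivAt.comp (0 : ℂ) k4.hasDerivAt hγ0
    exact (h2.add_const 1).deriv
  have hgt : g t ≠ 0 := k1 htc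
  have hgpos : 0 < ‖g t‖ := norm_pos_iff.mpr hgt
  have e1 : (1 : ℂ) - (g t + 1) = -(g t) := by ring
  rw [hder, hval, e1, norm_neg, norm_mul, div_le_iff₀ (by positivity)] at h1
  have hdg : 0 < ‖deriv g t‖ := by
    by_contra hcon
    have : ‖deriv g t‖ = 0 := le_antisymm (not_lt.mp hcon) (norm_nonneg _)
    rw [this, mul_zero, mul_zero] at k2
    linarith
  have h2 : ‖deriv g t‖ * ‖deriv γ 0‖ ≤
      ‖deriv g t‖ * (2 * (d : ℝ) ^ (n * q) * C₁ * ‖t - c₀‖ ^ 2) := by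
    calc ‖deriv g t‖ * ‖deriv γ 0‖ ≤ (d : ℝ) ^ (n * q) * ‖g t‖ ^ 2 := h1
      _ = (d : ℝ) ^ (n * q) * (‖g t‖ * ‖g t‖) := by ring
      _ ≤ (d : ℝ) ^ (n * q) * ((2 * (‖t - c₀‖ * ‖deriv g t‖)) * (C₁ * ‖t - c₀‖)) := by gcongr
      _ = _ := by ring
  exact le_of_mul_le_mul_left h2 hdg

/-- From discs to the distance. -/
theorem to_dist {d : ℕ} (hd : 2 ≤ d) {c₀ : ℂ} {φ : ℝ → ℝ} {C η : ℝ} (hC : 0 < C)
    (h : ∀ γ : ℂ → ℂ, DifferentiableOn ℂ γ (ball 0 1) →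
      (∀ s ∈ ball (0 : ℂ) 1, ∀ (N : ℕ) (z : ℂ), 1 ≤ N → orb d (γ s) z N = z →
        1 < ‖P d (γ s) z N‖) →
      ‖γ 0 - c₀‖ < η → ‖deriv γ 0‖ ≤ C * φ ‖γ 0 - c₀‖) {c : ℂ} (hc : ‖c - c₀‖ < η)
    (hφ : 0 ≤ φ ‖c - c₀‖) : infDist c (Hy d) ≤ C * φ ‖c - c₀‖ := by
  rcases (infDist_nonneg (x := c) (s := Hy d)).eq_or_lt with h0 | h0
  · rw [← h0]
    positivity
  · set r := infDist c (Hy d) with hr
    set γ : ℂ → ℂ := fun s => c + r * s with hγ
    have hγ0 : γ 0 = c := by simp [hγ]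
    have hγd : Differentiable ℂ γ := by fun_prop
    have hmaps : ∀ s ∈ ball (0 : ℂ) 1, γ s ∈ ball c r := by
      intro s hs
      rw [mem_ball_zero_iff] at hs
      rw [mem_ball_iff_norm, hγ]
      simp only
      rw [add_sub_cancel_left, norm_mul, Complex.norm_real, Real.norm_eq_abs, abs_of_pos h0]
      nlinarith
    have h1 := h γ hγd.differentiableOn
      (fun s hs N z hN hz => rep_dist hd (hmaps s hs) hN hz) (by rw [hγ0]; exact hc)
    have h2 : deriv γ 0 = r := by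
      have h3 : HasDerivAt γ (r * 1) 0 := ((hasDerivAt_id (0 : ℂ)).const_mul (r : ℂ)).const_add c
      rw [h3.deriv, mul_one]
    rw [h2, hγ0, Complex.norm_real, Real.norm_eq_abs, abs_of_pos h0] at h1
    exact h1

/-- A parameter with a non-repelling cycle is at distance `0`. -/
lemma infDist_parabolic {d : ℕ} (hd : 2 ≤ d) {c₀ z₀ : ℂ} {n : ℕ} (hn : 1 ≤ n)
    (hz : orb d c₀ z₀ n = z₀) (hP : ‖P d c₀ z₀ n‖ ≤ 1) : infDist c₀ (Hy d) = 0 := by
  rcases (infDist_nonneg (x := c₀) (s := Hy d)).eq_or_lt with h0 | h0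
  · exact h0.symm
  · have := rep_dist hd (mem_ball_self h0) hn hz
    linarith

/-- All parameters. -/
theorem all_dist {d : ℕ} {c₀ : ℂ} (h0 : infDist c₀ (Hy d) = 0) {C η a : ℝ} (hC : 0 < C)
    (hη : 0 < η) (ha : 1 ≤ a) (h : ∀ c, ‖c - c₀‖ < η → infDist c (Hy d) ≤ C * ‖c - c₀‖ ^ a) :
    ∃ C' : ℝ, 0 < C' ∧ ∀ c, infDist c (Hy d) ≤ C' * ‖c - c₀‖ ^ a := by
  refine ⟨C + (1 / η) ^ (a - 1), by positivity, fun c => ?_⟩
  have hx : 0 ≤ ‖c - c₀‖ ^ a := by positivity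
  have h1 : (0 : ℝ) ≤ (1 / η) ^ (a - 1) := by positivity
  rcases lt_or_ge ‖c - c₀‖ η with hc | hc
  · have := h c hc
    nlinarith
  · have h2 : infDist c (Hy d) ≤ ‖c - c₀‖ := by
      have := infDist_le_infDist_add_dist (x := c) (y := c₀) (s := Hy d)
      rw [h0, zero_add, dist_eq_norm] at this
      exact this
    have hpos : 0 < ‖c - c₀‖ := lt_of_lt_of_le hη hc
    have h3 : (1 : ℝ) ≤ (1 / η) ^ (a - 1) * ‖c - c₀‖ ^ (a - 1) := by
      rw [← Real.mul_rpow (by positivity) hpos.le]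
      apply Real.one_le_rpow _ (by linarith)
      rw [one_div, inv_mul_eq_div, one_le_div hη]
      exact hc
    have h4 : ‖c - c₀‖ ^ a = ‖c - c₀‖ ^ (a - 1) * ‖c - c₀‖ := by
      rw [← Real.rpow_add_one hpos.ne', sub_add_cancel]
    have h5 : ‖c - c₀‖ ≤ (1 / η) ^ (a - 1) * ‖c - c₀‖ ^ a := by
      rw [h4, ← mul_assoc]
      nlinarith
    nlinarith

end Pool.Agent.T2H09.PB
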