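import Pool.Agent.T2H09.PB.Sat

/-!
# Attracting cycles attract the critical point; sharpness at the cusp of the Mandelbrot set
-/

set_option autoImplicit false
open Set Filter Topology Metric Polynomial

namespace Pool.Agent.T2H09.PB

open Pool.Agent.W746.LD Pool.Agent.TH363.QI Pool.Agent.T2H09.IX Pool.Agent.T2H09.DH N62a1eb23

/-- If the critical orbit escapes there is no attracting cycle. -/
theorem att_mem {d : ℕ} (hd : 2 ≤ d) {c : ℂ} (hc : c ∈ Hy d) : c ∈ multibrotSet d := by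
  obtain ⟨p, z₀, hp, hper, -, hder⟩ := hc
  have hfix : orb d c z₀ p = z₀ := hper
  have hPe : deriv (fun z => z ^ d + c)^[p] z₀ = P d c z₀ p := (hasDerivAt_orb z₀ p).deriv
  rw [hPe] at hder
  intro htend
  have hesc : Tendsto (fun k => orb d c 0 k) atTop (Bornology.cobounded ℂ) := htend
  -- a disc which is mapped into itself
  obtain ⟨θ, hθ1, hθ2⟩ := exists_between hder
  have hO : (fun z => orb d c z p - z₀) =O[𝓝 z₀] fun z => z - z₀ := by
    have := (hasDerivAt_orb (n := d) (c := c) z₀ p).isBigO_sub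
    rwa [hfix] at this
  have hder2 := (hasDerivAt_orb (n := d) (c := c) z₀ p)
  rw [hasDerivAt_iff_isLittleO] at hder2
  have hlit := hder2.def (show 0 < θ - ‖P d c z₀ p‖ by linarith)
  obtain ⟨ρ, hρ, hb⟩ := Metric.eventually_nhds_iff.mp hlit
  have hmap : ∀ z ∈ ball z₀ ρ, orb d c z p ∈ ball z₀ ρ := by
    intro z hz
    have h1 := hb hz
    rw [hfix] at h1
    rw [mem_ball_iff_norm] at hz ⊢
    have h2 : orb d c z p - z₀ =
        (orb d c z p - z₀ - (z - z₀) • P d c z₀ p) + (z - z₀) • P d c z₀ p := by ring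
    rw [h2]
    refine lt_of_le_of_lt (norm_add_le _ _) ?_
    rw [norm_smul]
    have h3 : 0 ≤ ‖z - z₀‖ := norm_nonneg _
    nlinarith
  -- the critical orbit avoids the disc
  have havoid : ∀ i, orb d c 0 i ∉ ball z₀ ρ := by
    intro i hi
    have h1 : ∀ k, orb d c 0 (i + p * k) ∈ ball z₀ ρ := by
      intro k
      induction k with
      | zero => simpa using hi
      | succ k ih =>
        have e : i + p * (k + 1) = (i + p * k) + p := by ring
        rw [e, orb_add]
        exact hmap _ ih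
    have h2 : Tendsto (fun k => i + p * k) atTop atTop := by
      apply tendsto_atTop_mono (f := fun k => k)
      · intro k
        have : k ≤ p * k := Nat.le_mul_of_pos_left k hp
        omega
      · exact tendsto_id
    have h3 := (tendsto_norm_cobounded_atTop.comp (hesc.comp h2)).eventually
      (eventually_gt_atTop (‖z₀‖ + ρ))
    obtain ⟨k, hk⟩ := h3.exists
    have h4 := h1 k
    rw [mem_ball_iff_norm] at h4
    have h5 : ‖orb d c 0 (i + p * k)‖ ≤ ‖z₀‖ + ‖orb d c 0 (i + p * k) - z₀‖ := by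
      have : orb d c 0 (i + p * k) = z₀ + (orb d c 0 (i + p * k) - z₀) := by ring
      calc ‖orb d c 0 (i + p * k)‖ = ‖z₀ + (orb d c 0 (i + p * k) - z₀)‖ := by rw [← this]
        _ ≤ _ := norm_add_le _ _
    simp only [Function.comp_apply] at hk
    linarith
  -- the derivative is not zero
  have hPne : ∀ z m, orb d c z m ∈ ball z₀ ρ → P d c z m ≠ 0 := by
    intro z m hm
    apply P_ne_zero hd
    intro i hi h0
    apply havoid (m - i)
    have : orb d c z m = orb d c 0 (m - i) := by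
      rw [← h0, ← orb_add]
      congr 1
      omega
    rwa [← this]
  -- inverse branches
  set B₀ : ℝ := max (3 + ‖c‖) (‖z₀‖ + ρ) with hB₀
  have hbr : ∀ m, ∃ Z : ℂ → ℂ, DifferentiableOn ℂ Z (ball z₀ ρ) ∧ Z z₀ = z₀ ∧
      ∀ s ∈ ball z₀ ρ, orb d c (Z s) (p * m) = s := by
    intro m
    have hfixm : orb d c z₀ (p * m) = z₀ := (P_mul hfix m).1
    have h := H713R3.ZA.root_holds ℂ (ball z₀ ρ) (fun s z => orb d c z (p * m) - s) isOpen_ball
      (convex_ball _ _) ?_ ?_ ?_ z₀ (mem_ball_self hρ) z₀ (sub_eq_zero.mpr hfixm)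
    · obtain ⟨Z, h1, h2, h3, -⟩ := h
      exact ⟨Z, h1, h2, fun s hs => sub_eq_zero.mp (h3 s hs)⟩
    · apply ContDiff.contDiffOn
      refine ContDiff.sub ?_ contDiff_fst
      have h1 : ContDiff ℂ 1 (fun p' : ℂ × ℂ => orb d p'.1 p'.2 (p * m)) := contDiff_OO' d _ 1
      have h2 : ContDiff ℂ 1 (fun p' : ℂ × ℂ => (c, p'.2)) := contDiff_const.prodMk contDiff_snd
      exact h1.comp h2
    · intro K hK hKc M
      refine ⟨max (3 + ‖c‖) (M + (‖z₀‖ + ρ)), fun s hs z hz => ?_⟩
      by_contra hcon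
      rw [not_le, max_lt_iff] at hcon
      have h2 := growth hd (t := c) (z := z) hcon.1.le (p * m)
      have h3 : (1 : ℝ) ≤ 3 ^ (p * m) := one_le_pow₀ (by norm_num)
      have h4 := norm_sub_norm_le (orb d c z (p * m)) s
      have h5 := hK hs
      rw [mem_ball_iff_norm] at h5
      have h6 : ‖s‖ ≤ ‖z₀‖ + ρ := by
        have : s = z₀ + (s - z₀) := by ring
        calc ‖s‖ = ‖z₀ + (s - z₀)‖ := by rw [← this]
          _ ≤ ‖z₀‖ + ‖s - z₀‖ := norm_add_le _ _
          _ ≤ _ := by linarith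
      have h7 : 0 ≤ ‖z‖ := norm_nonneg z
      nlinarith [hcon.2]
    · intro s hs z hz
      have h1 : HasDerivAt (fun z => orb d c z (p * m) - s) (P d c z (p * m)) z :=
        (hasDerivAt_orb z (p * m)).sub_const s
      rw [h1.deriv]
      apply hPne
      rw [sub_eq_zero.mp hz]
      exact hs
  have hbound : ∀ m, ρ / 2 ≤ B₀ * ‖P d c z₀ p‖ ^ m := by
    intro m
    obtain ⟨Z, h1, h2, h3⟩ := hbr m
    have hZB : ∀ s ∈ ball z₀ ρ, ‖Z s‖ ≤ B₀ := by
      intro s hs
      by_contra hcon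
      rw [not_le, hB₀, max_lt_iff] at hcon
      have h4 := growth hd (t := c) (z := Z s) hcon.1.le (p * m)
      have h5 : (1 : ℝ) ≤ 3 ^ (p * m) := one_le_pow₀ (by norm_num)
      rw [h3 s hs] at h4
      rw [mem_ball_iff_norm] at hs
      have h6 : ‖s‖ ≤ ‖z₀‖ + ρ := by
        have : s = z₀ + (s - z₀) := by ring
        calc ‖s‖ = ‖z₀ + (s - z₀)‖ := by rw [← this]
          _ ≤ ‖z₀‖ + ‖s - z₀‖ := norm_add_le _ _
          _ ≤ _ := by linarith
      have h7 : 0 ≤ ‖Z s‖ := norm_nonneg _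
      nlinarith [hcon.2]
    have hsub : closedBall z₀ (ρ / 2) ⊆ ball z₀ ρ := closedBall_subset_ball (by linarith)
    have h4 : ‖deriv Z z₀‖ ≤ B₀ / (ρ / 2) := by
      apply Complex.norm_deriv_le_of_forall_mem_sphere_norm_le (by positivity)
      · exact (h1.mono hsub).diffContOnCl_ball le_rfl
      · intro z hz
        exact hZB z (hsub (sphere_subset_closedBall hz))
    have hZd : HasDerivAt Z (deriv Z z₀) z₀ :=
      ((h1 z₀ (mem_ball_self hρ)).differentiableAt (isOpen_ball.mem_nhds (mem_ball_self hρ))).hasDerivAt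
    have h5 : HasDerivAt (fun s => orb d c (Z s) (p * m)) (P d c (Z z₀) (p * m) * deriv Z z₀) z₀ :=
      HasDerivAt.comp z₀ (hasDerivAt_orb (Z z₀) (p * m)) hZd
    have h6 : HasDerivAt (fun s => orb d c (Z s) (p * m)) 1 z₀ := by
      refine (hasDerivAt_id z₀).congr_of_eventuallyEq ?_
      filter_upwards [isOpen_ball.mem_nhds (mem_ball_self hρ)] with s hs using h3 s hs
    have h7 := h5.unique h6
    rw [h2, (P_mul hfix m).2] at h7
    have h8 := congrArg norm h7
    rw [norm_mul, norm_pow, norm_one] at h8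
    rw [le_div_iff₀ (by positivity)] at h4
    have h9 : 0 ≤ ‖P d c z₀ p‖ ^ m := by positivity
    calc ρ / 2 = (‖P d c z₀ p‖ ^ m * ‖deriv Z z₀‖) * (ρ / 2) := by rw [h8, one_mul]
      _ = ‖P d c z₀ p‖ ^ m * (‖deriv Z z₀‖ * (ρ / 2)) := by ring
      _ ≤ ‖P d c z₀ p‖ ^ m * B₀ := by gcongr
      _ = _ := mul_comm _ _
  have hlim : Tendsto (fun m : ℕ => B₀ * ‖P d c z₀ p‖ ^ m) atTop (𝓝 0) := by
    have := (tendsto_pow_atTop_nhds_zero_of_lt_one (norm_nonneg (P d c z₀ p)) hder).const_mul B₀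
    rwa [mul_zero] at this
  have hev := hlim.eventually (gt_mem_nhds (show 0 < ρ / 2 by linarith))
  obtain ⟨m, hm⟩ := hev.exists
  have := hbound m
  linarith

end Pool.Agent.T2H09.PB
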